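import Mathlib

set_option autoImplicit false

open Set Filter Topology TopologicalSpace

namespace Pool.Agent.Results.MP_53bf97_gt.Fan

/-- the hyperspace of subcontinua, with the Hausdorff metric -/
abbrev C (X : Type) [MetricSpace X] := {A : NonemptyCompacts X // IsConnected (A : Set X)}

/-- the quotient of `C X` collapsing the members containing `p` to one point -/
abbrev HS {X : Type} [MetricSpace X] (p : X) :=
  Quot fun A B : C X => p ∈ (A.1 : Set X) ∧ p ∈ (B.1 : Set X)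

def Aposyndetic (Y : Type) [TopologicalSpace Y] : Prop :=
  ∀ x y : Y, x ≠ y → ∃ M : Set Y, IsCompact M ∧ IsConnected M ∧ x ∈ interior M ∧ y ∉ M

theorem result : ∃ (X : Type) (_ : MetricSpace X) (p : X), Nontrivial X ∧ CompactSpace X ∧
    ConnectedSpace X ∧ ¬ Aposyndetic (HS p) := by
  let u : ℕ → ℝ := fun n => 1 / ((n : ℝ) + 1)
  have hu : Tendsto u atTop (𝓝 0) := tendsto_one_div_add_atTop_nhds_zero_nat
  let g : ℝ × ℝ → ℝ × ℝ := fun z => (z.1, z.1 * z.2)
  have hg : Continuous g := by fun_prop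
  let S : Set (ℝ × ℝ) := g '' (Icc 0 1 ×ˢ insert 0 (range u))
  have m : ∀ t ∈ Icc (0 : ℝ) 1, ∀ s ∈ insert 0 (range u), (t, t * s) ∈ S := fun t ht s hs =>
    ⟨(t, s), ⟨ht, hs⟩, rfl⟩
  have m0 : ((0 : ℝ), (0 : ℝ)) ∈ S := by simpa using m 0 (by simp) 0 (by simp)
  have m1 : ∀ s ∈ insert 0 (range u), ((1 : ℝ), s) ∈ S := fun s hs => by
    simpa using m 1 (by simp) s hs
  let p : S := ⟨_, m0⟩
  let e : S → C S := fun x => ⟨{x}, by simpa using isConnected_singleton⟩
  have he : Continuous e := NonemptyCompacts.continuous_singleton.subtype_mk _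
  refine ⟨S, inferInstance, p, ⟨p, ⟨_, m1 0 (by simp)⟩, by simp [p]⟩,
    isCompact_iff_compactSpace.1 ((isCompact_Icc.prod hu.isCompact_insert_range).image hg),
    isConnected_iff_connectedSpace.1 ⟨⟨_, m0⟩, isPreconnected_of_forall (0, 0) ?_⟩, fun h => ?_⟩
  · rintro _ ⟨⟨t, s⟩, ⟨ht, hs⟩, rfl⟩
    refine ⟨(fun r => (r, r * s)) '' Icc 0 1, ?_, ⟨0, by simp, by simp⟩, ⟨t, ht, rfl⟩,
      isPreconnected_Icc.image _ (by fun_prop)⟩
    rintro _ ⟨r, hr, rfl⟩
    exact m r hr s hs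
  let L : ∀ P : Set S, p ∉ P → Set (HS p) := fun P hP => {z | Quot.lift
    (fun A : C S => (A.1 : Set S) ⊆ P) (fun A B hAB => propext
      ⟨fun h => absurd (h hAB.1) hP, fun h => absurd (h hAB.2) hP⟩) z}
  have hL : ∀ P hP, IsOpen P → IsOpen (L P hP) := fun P hP hO => isOpen_coinduced.2
    ((NonemptyCompacts.isOpen_subsets_of_isOpen hO).preimage continuous_subtype_val)
  obtain ⟨M, -, M1, M2, M3⟩ := h (Quot.mk _ (e ⟨_, m1 0 (by simp)⟩)) (Quot.mk _ (e p)) fun h => by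
    have : Quot.mk _ (e p) ∈ L {p}ᶜ (by simp) := h ▸ (by simp [L, e, p])
    simp [L, e] at this
  have ht : Tendsto (fun n => (⟨_, m1 (u n) (by simp)⟩ : S)) atTop (𝓝 ⟨_, m1 0 (by simp)⟩) :=
    tendsto_subtype_rng.2 (tendsto_const_nhds.prodMk_nhds hu)
  obtain ⟨n, hn⟩ := (((continuous_quot_mk.comp he).tendsto _).comp ht).eventually
    (isOpen_interior.mem_nhds M2) |>.exists
  have c0 : (0 : ℝ) < 1 / (n + 3 / 2) := by positivity
  have c1 : ∀ k : ℕ, u k ≠ 1 / (n + 3 / 2) := fun k hk => by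
    simp only [u, one_div, inv_inj] at hk
    have : ((2 * k : ℕ) : ℝ) = (2 * n + 1 : ℕ) := by push_cast; linarith
    have := Nat.cast_injective this
    omega
  obtain ⟨z, -, z1, z2⟩ := M1.2 (L {x | x.1.2 < 1 / (n + 3 / 2) * x.1.1} (by simp [p]))
    (L {x | 1 / (n + 3 / 2) * x.1.1 < x.1.2} (by simp [p])) (hL _ (by simp [p]) (isOpen_lt (by fun_prop)
      (by fun_prop))) (hL _ (by simp [p]) (isOpen_lt (by fun_prop) (by fun_prop))) (fun z hz => by
      obtain ⟨A, rfl⟩ := Quot.exists_rep z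
      refine A.2.2.subset_or_subset (isOpen_lt (by fun_prop) (by fun_prop)) (isOpen_lt
        (by fun_prop) (by fun_prop)) (disjoint_left.2 fun x a b => lt_asymm (a := x.1.2) a b) ?_
      rintro ⟨_, ⟨t, s⟩, ⟨ht, hs⟩, rfl⟩ hx
      have t0 : t ≠ 0 := by
        rintro rfl
        refine M3 (Quot.sound (r := fun A B : C S => p ∈ (A.1 : Set S) ∧ p ∈ (B.1 : Set S))
          (a := A) (b := e p) ⟨by convert hx; simp [p, g], by simp [e]⟩ ▸ hz)
      refine (lt_or_lt_iff_ne (a := t * s) (b := 1 / (n + 3 / 2) * t)).2 fun hc => ?_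
      have : s = 1 / (n + 3 / 2) := mul_left_cancel₀ t0 (hc.trans (mul_comm _ _))
      exact hs.elim (fun h0 => c0.ne (h0.symm.trans this)) fun ⟨k, hk⟩ => c1 k (hk.trans this))
    ⟨_, interior_subset M2, by simpa [L, e] using c0⟩
    ⟨_, interior_subset hn, by
      simpa [L, e, u] using one_div_lt_one_div_of_lt (a := (n : ℝ) + 1) (b := n + 3 / 2)
        (by positivity) (by linarith)⟩
  obtain ⟨A, rfl⟩ := Quot.exists_rep z
  obtain ⟨x, hx⟩ := A.1.nonempty
  exact lt_asymm (a := x.1.2) (z1 hx) (z2 hx)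

end Pool.Agent.Results.MP_53bf97_gt.Fan
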