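import Mathlib
import Pool.Agent.H.MP_53bf97_gt.A

set_option autoImplicit false

open Set Filter Topology TopologicalSpace

namespace Pool.Agent.Results.MP_53bf97_gt.Semi

/-- the hyperspace of subcontinua, with the Hausdorff metric -/
abbrev C (X : Type) [MetricSpace X] := {A : NonemptyCompacts X // IsConnected (A : Set X)}

/-- the quotient of `C X` collapsing the members containing `p` to one point -/
abbrev HS {X : Type} [MetricSpace X] (p : X) :=
  Quot fun A B : C X => p ∈ (A.1 : Set X) ∧ p ∈ (B.1 : Set X)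

def ApoAt {Y : Type} [TopologicalSpace Y] (x y : Y) : Prop :=
  ∃ M : Set Y, IsCompact M ∧ IsConnected M ∧ M.Nontrivial ∧ x ∈ interior M ∧ y ∉ M

theorem result (X : Type) [MetricSpace X] [CompactSpace X] [ConnectedSpace X] (p : X)
    (a b : HS p) (hab : a ≠ b) : ApoAt a b ∨ ApoAt b a := by
  have key : ∀ (A B : C X) (x : X), x ∈ (A.1 : Set X) → x ∉ (B.1 : Set X) → p ∉ (B.1 : Set X) →
      ApoAt (Quot.mk _ A : HS p) (Quot.mk _ B) := fun A B x h1 h2 h3 => by
    obtain ⟨U, u1, u2, u3⟩ := ((Set.toFinite {x, p}).isCompact).exists_isOpen_closure_subset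
      (B.1.isCompact.isClosed.isOpen_compl.mem_nhdsSet.2 (insert_subset h2 (by simpa using h3)))
    let L : ∀ V : Set X, p ∈ V → Set (HS p) := fun V hV => {z | Quot.lift
      (fun A : C X => ((A.1 : Set X) ∩ V).Nonempty) (fun A B hAB => propext
        ⟨fun _ => ⟨p, hAB.2, hV⟩, fun _ => ⟨p, hAB.1, hV⟩⟩) z}
    have hp : p ∈ U := u2 (by simp)
    have hc := H.MP_53bf97_gt.closed.inter
      (NonemptyCompacts.isClosed_inter_nonempty_of_isClosed (isClosed_closure (s := U)))
    have e : L (closure U) (subset_closure hp) = Quot.mk _ '' (Subtype.val ⁻¹'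
        {K : NonemptyCompacts X | ((K : Set X) ∩ closure U).Nonempty}) := by
      refine Subset.antisymm (fun z hz => ?_) (by rintro _ ⟨K, hK, rfl⟩; exact hK)
      obtain ⟨K, rfl⟩ := Quot.exists_rep z
      exact ⟨K, hz, rfl⟩
    refine ⟨L (closure U) (subset_closure hp), ?_, ⟨⟨Quot.mk _ A, x, h1,
      subset_closure (u2 (by simp))⟩, ?_⟩, ?_, mem_interior.2 ⟨L U hp, fun z hz => ?_,
        isOpen_coinduced.2 ((NonemptyCompacts.isOpen_inter_nonempty_of_isOpen u1).preimage
          continuous_subtype_val), x, h1, u2 (by simp)⟩, fun ⟨z, z1, z2⟩ => u3 z2 z1⟩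
    · rw [e]
      refine IsCompact.image ?_ continuous_quot_mk
      exact Subtype.isCompact_iff.2 ((Subtype.image_preimage_val _ _).symm ▸ hc.isCompact)
    · rw [e]
      refine IsPreconnected.image ?_ _ continuous_quot_mk.continuousOn
      exact IsInducing.subtypeVal.isPreconnected_image.1 ((Subtype.image_preimage_val _ _).symm ▸
        H.MP_53bf97_gt.conn hc (fun A h => h.1)
          fun A h B h' hle => ⟨h', h.2.mono (inter_subset_inter_left _ hle)⟩)
    · obtain ⟨z, z1, z2⟩ : ∃ z ∈ U, z ≠ p := by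
        by_contra! h
        obtain ⟨w, hw⟩ := B.1.nonempty
        have e' : U = {p} := Subset.antisymm h (singleton_subset_iff.2 hp)
        exact u3 (subset_closure ((IsClopen.eq_univ ⟨e' ▸ isClosed_singleton, u1⟩ ⟨p, hp⟩).ge
          (mem_univ w))) hw
      let g : X → HS p := fun x => Quot.mk _ ⟨{x}, by simpa using isConnected_singleton⟩
      refine ⟨g z, ⟨z, rfl, subset_closure z1⟩, g p, ⟨p, rfl, subset_closure hp⟩, fun h => ?_⟩
      obtain ⟨w, w1, w2⟩ : g z ∈ L {p} rfl := h ▸ ⟨p, rfl, rfl⟩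
      exact z2 (w1.symm.trans w2)
    · obtain ⟨K, rfl⟩ := Quot.exists_rep z
      exact Set.Nonempty.mono (inter_subset_inter_right _ subset_closure) hz
  obtain ⟨A, rfl⟩ := Quot.exists_rep a
  obtain ⟨B, rfl⟩ := Quot.exists_rep b
  by_cases hA : p ∈ (A.1 : Set X)
  · have hB : p ∉ (B.1 : Set X) := fun h => hab (Quot.sound ⟨hA, h⟩)
    exact .inl (key A B p hA hB hB)
  by_cases hB : p ∈ (B.1 : Set X)
  · exact .inr (key B A p hB hA hA)
  by_contra h
  exact hab (congrArg _ (Subtype.ext (NonemptyCompacts.ext (Subset.antisymm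
    (fun x hx => by_contra fun h' => h (.inl (key A B x hx h' hB)))
    fun x hx => by_contra fun h' => h (.inr (key B A x hx h' hA))))))

end Pool.Agent.Results.MP_53bf97_gt.Semi
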